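import Pool.Agent.helper99.EP.Spec

/-!
# Row `ep:WDW` (MP_bf63dc_nt): windows of the sums over `c`
-/

set_option autoImplicit false

namespace Pool.Agent.EP

open Finset Pool.Agent.helper85.FC Pool.Agent.OM Pool.Agent.helper11.TX Pool.Agent.AT

theorem WDW_unit {a : ℕ} {c : ℤ} (h : IsCoprime (a : ℤ) c) (hd : (a : ℤ) ∣ c) : a = 1 := by
  have h1 : IsUnit (a : ℤ) := h.isUnit_of_dvd' dvd_rfl hd
  have h2 := Int.isUnit_iff_natAbs_eq.1 h1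
  simpa using h2

theorem WDW_adm {a b M : ℕ} (h : a = 1 ∧ b = 1 ∧ Odd M ∨ (¬ (a = 1 ∧ b = 1)) ∧ a ∣ M) : ¬ Adm a b (-((b : ℤ) * M)) := by
  rintro ⟨-, -, -, -, h5, h6, h7⟩
  rcases h with ⟨ha, hb, hM⟩ | ⟨hab, hM⟩
  · subst ha
    subst hb
    apply h7
    refine ⟨odd_one, odd_one, ?_⟩
    rw [Nat.cast_one, one_mul]
    exact (Int.odd_coe_nat M |>.2 hM).neg
  · have hb : b = 1 := WDW_unit h6 ((dvd_mul_right _ _).neg_right)
    have ha : a = 1 := by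
      apply WDW_unit h5
      apply Dvd.dvd.neg_right
      apply Dvd.dvd.mul_left
      exact Int.natCast_dvd_natCast.2 hM
    exact hab ⟨ha, hb⟩

theorem WDW_sum {P : ℕ → ℕ → ℤ → Prop} {a b M : ℕ} (h : ¬ P a b (-((b : ℤ) * M))) :
    Tw P SS a b (2 * M) (-(M : ℤ)) = Ms P a b (b * M) := by
  classical
  unfold Tw Ms
  refine Finset.sum_congr ?_ fun _ _ => rfl
  ext c
  simp only [Finset.mem_filter, Finset.mem_Ioc, Finset.mem_Icc]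
  push_cast
  have e1 : (b : ℤ) * -(M : ℤ) = -((b : ℤ) * M) := by ring
  have e2 : (b : ℤ) * (-(M : ℤ) + 2 * M) = (b : ℤ) * M := by ring
  rw [e1, e2]
  constructor
  · rintro ⟨⟨h1, h2⟩, h3⟩
    exact ⟨⟨h1.le, h2⟩, h3⟩
  · rintro ⟨⟨h1, h2⟩, h3⟩
    refine ⟨⟨lt_of_le_of_ne h1 ?_, h2⟩, h3⟩
    intro he
    rw [← he] at h3
    exact h h3

theorem WDW : WDW_stmt := by
  intro a b M _ _ _ h
  have h1 := WDW_adm h
  refine ⟨WDW_sum ?_, WDW_sum h1⟩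
  intro h2
  obtain ⟨t1, t2, t3, t4, t5, t6, t7, -⟩ := h2
  exact h1 ⟨t1, t2, t3, t4, t5, t6, t7⟩

end Pool.Agent.EP
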